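import Mathlib

/-!
MP_6d480e_an, Q1 (negative answer): `p = 127`, `n = 64`; two inequivalent extreme
64-element subsets of `ZMod 127`, namely the supports of the Walsh spectra of the
almost bent power functions `x ^ 3` and `x ^ 23` on `F_128` (in logarithmic
coordinates).
-/

namespace Pool.Agent.Results.MP_6d480e_an.InequivalentExtreme

open Finset

/-- A set `E` of size at least one in a finite abelian group is extreme if it
carries a unimodular measure `μ = ∑ c_x δ_x` with `μ * μ~ = |E| δ_0`. The coefficient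
of `μ * μ~` at `s` is `∑ x, c x * conj (c (x - s))`. -/
def IsExtreme {G : Type*} [AddCommGroup G] [Fintype G] [DecidableEq G]
    (E : Finset G) : Prop :=
  1 ≤ E.card ∧ ∃ c : G → ℂ, (∀ x ∈ E, ‖c x‖ = 1) ∧ (∀ x, x ∉ E → c x = 0) ∧
    ∀ s : G, ∑ x : G, c x * (starRingEnd ℂ) (c (x - s)) =
      if s = 0 then (E.card : ℂ) else 0

/-- Two subsets of `ZMod p` are equivalent if `F = a E + b` with `a ≠ 0`. -/
def Equivalent {p : ℕ} (E F : Finset (ZMod p)) : Prop :=
  ∃ a b : ZMod p, a ≠ 0 ∧ F = E.image (fun x => a * x + b)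

/-- sign sequence coded by two bit masks -/
def sg (P M : ℕ) (i : ℕ) : ℤ :=
  (if P.testBit i then 1 else 0) - (if M.testBit i then 1 else 0)

def P1 : ℕ := 144395443378137741935860105331066560641
def M1 : ℕ := 23967983297652233738373723793576689664
def P2 : ℕ := 25307595253328836530604980288239010071
def M2 : ℕ := 5838254879836793180944993298070110208

/-- autocorrelation as a list sum -/
def ac (P M s : ℕ) : ℤ :=
  ((List.range 127).map (fun i => sg P M i * sg P M (((127 - s) + i) % 127))).sum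

/-- autocorrelation of the support -/
def acS (P M s : ℕ) : ℕ :=
  ((List.range 127).map (fun i =>
    if sg P M i ≠ 0 ∧ sg P M (((127 - s) + i) % 127) ≠ 0 then 1 else 0)).sum

lemma ac1 : ∀ s ∈ List.range 127, ac P1 M1 s = if s = 0 then 64 else 0 := by
  decide +kernel

lemma ac2 : ∀ s ∈ List.range 127, ac P2 M2 s = if s = 0 then 64 else 0 := by
  decide +kernel

lemma acS1 : ∀ s ∈ List.range 127, acS P1 M1 s = if s = 0 then 64 else 32 := by
  decide +kernel

lemma acS2 : acS P2 M2 3 = 28 := by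
  decide +kernel

lemma acS20 : acS P2 M2 0 = 64 := by
  decide +kernel

lemma vals1 : ∀ s ∈ List.range 127, sg P1 M1 s ≠ 0 → |sg P1 M1 s| = 1 := by
  decide +kernel

lemma vals2 : ∀ s ∈ List.range 127, sg P2 M2 s ≠ 0 → |sg P2 M2 s| = 1 := by
  decide +kernel

/-- the support -/
def supp (P M : ℕ) : Finset (ZMod 127) :=
  Finset.univ.filter (fun x : ZMod 127 => sg P M x.val ≠ 0)

lemma val_sub (x s : ZMod 127) : (x - s).val = ((127 - s.val) + x.val) % 127 := rfl

lemma sum_zmod {A : Type*} [AddCommMonoid A] (f : ℕ → A) :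
    ∑ x : ZMod 127, f x.val = ((List.range 127).map f).sum := by
  have h : ∑ x : ZMod 127, f x.val = ∑ i : Fin 127, f i := rfl
  rw [h, Fin.sum_univ_eq_sum_range]
  rfl

lemma sum_ac (P M : ℕ) (s : ZMod 127) :
    ∑ x : ZMod 127, sg P M x.val * sg P M (x - s).val = ac P M s.val := by
  simp only [val_sub]
  rw [sum_zmod (fun i => sg P M i * sg P M (((127 - s.val) + i) % 127))]
  rfl

/-- number of pairs at distance `s` -/
def N (E : Finset (ZMod 127)) (s : ZMod 127) : ℕ := (E.filter (fun x => x - s ∈ E)).card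

lemma N_supp (P M : ℕ) (s : ZMod 127) : N (supp P M) s = acS P M s.val := by
  have h1 : N (supp P M) s = ∑ x : ZMod 127,
      if sg P M x.val ≠ 0 ∧ sg P M (x - s).val ≠ 0 then 1 else 0 := by
    rw [N, Finset.card_eq_sum_ones, supp, Finset.filter_filter, Finset.sum_filter]
    refine Finset.sum_congr rfl fun x _ => ?_
    simp
  rw [h1]
  have h2 : ∀ x : ZMod 127, (if sg P M x.val ≠ 0 ∧ sg P M (x - s).val ≠ 0 then 1 else 0) =
      (fun i : ℕ => if sg P M i ≠ 0 ∧ sg P M (((127 - s.val) + i) % 127) ≠ 0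
        then 1 else 0) x.val := by
    intro x
    rw [val_sub]
  rw [Finset.sum_congr rfl (fun x _ => h2 x)]
  exact sum_zmod (fun i : ℕ => if sg P M i ≠ 0 ∧ sg P M (((127 - s.val) + i) % 127) ≠ 0
        then 1 else 0)

lemma card_supp (P M : ℕ) : (supp P M).card = acS P M 0 := by
  have h := N_supp P M 0
  have h2 : N (supp P M) 0 = (supp P M).card := by
    rw [N]
    congr 1
    refine Finset.filter_true_of_mem fun x hx => ?_
    simpa using hx
  rw [← h2, h]
  rfl

instance : Fact (Nat.Prime 127) := ⟨by norm_num⟩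

lemma val_mem (s : ZMod 127) : s.val ∈ List.range 127 :=
  List.mem_range.2 (ZMod.val_lt s)

lemma isExtreme_supp (P M : ℕ) (h64 : acS P M 0 = 64)
    (hac : ∀ s ∈ List.range 127, ac P M s = if s = 0 then 64 else 0)
    (hv : ∀ s ∈ List.range 127, sg P M s ≠ 0 → |sg P M s| = 1) :
    IsExtreme (supp P M) := by
  refine ⟨by rw [card_supp, h64]; norm_num, fun x => ((sg P M x.val : ℤ) : ℂ), ?_, ?_, ?_⟩
  · intro x hx
    have hx' : sg P M x.val ≠ 0 := by
      simpa [supp] using hx
    have := hv x.val (val_mem x) hx'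
    rw [Complex.norm_intCast, ← Int.cast_abs, this]
    norm_num
  · intro x hx
    have hx' : sg P M x.val = 0 := by
      by_contra h
      exact hx (by simp [supp, h])
    simp [hx']
  · intro s
    have h1 : ∑ x : ZMod 127, ((sg P M x.val : ℤ) : ℂ) *
        (starRingEnd ℂ) (((sg P M (x - s).val : ℤ) : ℂ)) =
        ((∑ x : ZMod 127, sg P M x.val * sg P M (x - s).val : ℤ) : ℂ) := by
      push_cast
      refine Finset.sum_congr rfl fun x _ => ?_
      simp
    rw [h1, sum_ac, hac s.val (val_mem s), card_supp, h64]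
    by_cases hs : s = 0
    · simp [hs]
    · have : s.val ≠ 0 := by
        rw [Ne, ZMod.val_eq_zero]; exact hs
      simp [hs]

lemma N_image (E : Finset (ZMod 127)) (a b s : ZMod 127) (ha : a ≠ 0) :
    N (E.image (fun x => a * x + b)) s = N E (a⁻¹ * s) := by
  have hinj : Function.Injective (fun x : ZMod 127 => a * x + b) := by
    intro x y hxy
    simp only at hxy
    exact mul_left_cancel₀ ha (add_right_cancel hxy)
  rw [N, N, Finset.filter_image, Finset.card_image_of_injective _ hinj]
  congr 1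
  ext x
  simp only [Finset.mem_filter, Finset.mem_image]
  refine and_congr_right fun _ => ⟨?_, ?_⟩
  · rintro ⟨y, hy, hyx⟩
    have : y = x - a⁻¹ * s := by
      apply mul_left_cancel₀ ha
      rw [mul_sub, ← mul_assoc, mul_inv_cancel₀ ha, one_mul]
      linear_combination hyx
    rwa [← this]
  · intro hy
    refine ⟨_, hy, ?_⟩
    rw [mul_sub, ← mul_assoc, mul_inv_cancel₀ ha, one_mul]
    ring

lemma three_ne : (3 : ZMod 127) ≠ 0 := by decide

lemma val_three : (3 : ZMod 127).val = 3 := rfl

lemma not_equivalent : ¬ Equivalent (supp P1 M1) (supp P2 M2) := by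
  rintro ⟨a, b, ha, hE⟩
  have h2 : N (supp P2 M2) 3 = 28 := by
    rw [N_supp, val_three]
    exact acS2
  have h3 : N (supp P2 M2) 3 = N (supp P1 M1) (a⁻¹ * 3) := by
    rw [hE, N_image _ _ _ _ ha]
  have hne : (a⁻¹ * 3 : ZMod 127) ≠ 0 := mul_ne_zero (inv_ne_zero ha) three_ne
  have hne' : (a⁻¹ * 3 : ZMod 127).val ≠ 0 := by
    rw [Ne, ZMod.val_eq_zero]; exact hne
  have h4 : N (supp P1 M1) (a⁻¹ * 3) = 32 := by
    rw [N_supp, acS1 _ (val_mem _), if_neg hne']
  rw [h2, h4] at h3
  exact absurd h3 (by norm_num)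

/-- **Negative answer to Q1 of MP_6d480e_an.** There are a prime `p` and `1 < n < p`
(namely `p = 127` and `n = 64`) and two extreme `n`-element subsets of `ZMod p`
that are not equivalent. -/
theorem explicit : IsExtreme (supp P1 M1) ∧ IsExtreme (supp P2 M2) ∧
    (supp P1 M1).card = 64 ∧ (supp P2 M2).card = 64 ∧
    ¬ Equivalent (supp P1 M1) (supp P2 M2) :=
  ⟨isExtreme_supp _ _ (acS1 0 (by simp)) ac1 vals1,
    isExtreme_supp _ _ acS20 ac2 vals2,
    (card_supp _ _).trans (acS1 0 (by simp)), (card_supp _ _).trans acS20,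
    not_equivalent⟩

/-- **Negative answer to Q1 of MP_6d480e_an.** It is not true that for every prime
`p` and all `1 < n < p` any two extreme `n`-element subsets of `ZMod p` are
equivalent; it already fails for `p = 127`, `n = 64`. -/
theorem result :
    (∃ E F : Finset (ZMod 127), E.card = 64 ∧ F.card = 64 ∧ IsExtreme E ∧
      IsExtreme F ∧ ¬ Equivalent E F) ∧
    ¬ ∀ (p : ℕ) [Fact p.Prime] (n : ℕ), 1 < n → n < p → ∀ E F : Finset (ZMod p),
      E.card = n → F.card = n → IsExtreme E → IsExtreme F → Equivalent E F := by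
  obtain ⟨h1, h2, h3, h4, h5⟩ := explicit
  refine ⟨⟨_, _, h3, h4, h1, h2, h5⟩, fun H => ?_⟩
  exact h5 (H 127 64 (by norm_num) (by norm_num) _ _ h3 h4 h1 h2)

end Pool.Agent.Results.MP_6d480e_an.InequivalentExtreme
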